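import Mathlib
import Pool.Agent.TH978.S13.Anti4

set_option autoImplicit false

/-!
# Non-special anticanonical classes: `k` points of multiplicity `h`, `r (M + 2)` points of multiplicity `m`

Let `k + r M = 9` with `M, r ≥ 1`. For general points the class `(3h; h^k, m^{r(M+2)})` is non-special if
its self-intersection `r (M h² - (M+2) m²)` is negative or its expected number of sections is at least two.
-/

namespace Pool.Agent.Results.MP_0f5763_ag.AnticanonicalNef

theorem result (M r k : ℕ) (hM : 1 ≤ M) (hr : 1 ≤ r) (hk : k + r * M = 9) (h m : ℕ) :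
    ∃ F : MvPolynomial (Fin (k + r * (M + 2)) × Fin 2) ℂ, F ≠ 0 ∧
      ∀ P : Fin (k + r * (M + 2)) → Fin 2 → ℂ,
        MvPolynomial.eval (fun ij : Fin (k + r * (M + 2)) × Fin 2 => P ij.1 ij.2) F ≠ 0 →
        ∀ d : ℕ, ((d ≤ 3 * h ∧ M * h ^ 2 < (M + 2) * m ^ 2) ∨
          (3 * h ≤ d ∧ (M + 2) * Nat.choose (m + 1) 2 < M * Nat.choose (h + 1) 2)) →
          Module.finrank ℂ
            ↥(MvPolynomial.homogeneousSubmodule (Fin 3) ℂ d ⊓
              Submodule.restrictScalars ℂ
                (⨅ i : Fin (k + r * (M + 2)),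
                  (Ideal.span
                    ({MvPolynomial.X 0 - MvPolynomial.C (P i 0) * MvPolynomial.X 2,
                      MvPolynomial.X 1 - MvPolynomial.C (P i 1) * MvPolynomial.X 2} :
                      Set (MvPolynomial (Fin 3) ℂ))) ^ (if (i : ℕ) < k then h else m)))
          = Nat.choose (d + 2) 2 -
              (k * Nat.choose (h + 1) 2 + r * (M + 2) * Nat.choose (m + 1) 2) := by
  obtain ⟨F, hF, hF'⟩ := TH978.S13.expDim_anti4 hM hr hk h m
  refine ⟨F.map (algebraMap ℚ ℂ), H932R3.map_ne_zero_of hF, fun P hP d hd => ?_⟩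
  rw [MvPolynomial.eval_map] at hP
  have h1 := hF' P hP d hd
  unfold H932R3.ExpDim at h1
  rw [TH978.S13.sum_wt] at h1
  exact h1

end Pool.Agent.Results.MP_0f5763_ag.AnticanonicalNef
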