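import Mathlib
import Pool.Agent.TH442.NF.Std
import Pool.Agent.TH603.Cut.Deg
import Pool.Agent.TH105.NU.All
import Pool.Agent.TH2.NU.Final
import Pool.Agent.TH759.EV.NDich

set_option autoImplicit false

/-!
# Nef classes in the Weyl group orbits of classes of expected dimension are non-special

Let `P 1, …, P n`, `n ≥ 10`, be very general points of the complex projective plane, and let
`(d; w)` be a nef class on the blow-up `X_n`. Suppose that finitely many reflections in classes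
`H - E_i - E_j - E_k` carry `(d; w)` to a class `(d'; w')`. Then `(d; w)` is non-special in each of the
following cases:

* `w'` consists of numbers `m` and `m + 1`, and `n` is large, or `4 ∣ n` and `n ≥ 144`, or `n = 13`, or
  `m` is small against `n`, or `2 d' + 3` is not in a window of length less than two around
  `√n + 2 (∑ w') / √n` (so for all `d'` but at most one);
* `w'` is arbitrary and `2 d' + 3` lies above a window which depends on the distance of `w'` from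
  `{b, b + 1}`;
* `n ≥ 37` and `w' = (M, …, M)`, or `w' ≤ M` and `(d'; M, …, M)` has nonnegative Euler
  characteristic;
* `n` is large, or `4 ∣ n` and `n ≥ 144`, and `w' ≤ v` for a vector `v` of numbers `m` and `m + 1`
  such that `(d'; v)` has nonnegative Euler characteristic.
-/

namespace Pool.Agent.Results.MP_0f5763_ag.NefWeylOrbits

open MvPolynomial

/-- The homogeneous ideal of the point `(p 0 : p 1 : 1)`. -/
noncomputable def pt (p : Fin 2 → ℂ) : Ideal (MvPolynomial (Fin 3) ℂ) :=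
  Ideal.span {X 0 - C (p 0) * X 2, X 1 - C (p 1) * X 2}

/-- The class `(d; w)` is nef at the points `P`: it meets every irreducible curve nonnegatively. An
irreducible curve other than the exceptional ones is given by an irreducible form `G` of degree `e`
with multiplicity exactly `u i` at `P i`. -/
def Nef {n : ℕ} (P : Fin n → Fin 2 → ℂ) (d : ℕ) (w : Fin n → ℕ) : Prop :=
  ∀ (G : MvPolynomial (Fin 3) ℂ) (e : ℕ) (u : Fin n → ℕ), Irreducible G → G.IsHomogeneous e →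
    (∀ i, G ∈ pt (P i) ^ (u i) ∧ G ∉ pt (P i) ^ (u i + 1)) → ∑ i, w i * u i ≤ d * e

/-- The linear system `(d; w)` at the points `P` is non-special: the space of forms of degree `d`
vanishing to order at least `w i` at `P i` has dimension
`max (0, (d + 1) (d + 2) / 2 - ∑ w i (w i + 1) / 2)`. -/
def NonSpecial {n : ℕ} (P : Fin n → Fin 2 → ℂ) (d : ℕ) (w : Fin n → ℕ) : Prop :=
  Module.finrank ℂ
    ↥(homogeneousSubmodule (Fin 3) ℂ d ⊓
      Submodule.restrictScalars ℂ (⨅ i : Fin n, pt (P i) ^ (w i)))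
  = Nat.choose (d + 2) 2 - ∑ i, Nat.choose (w i + 1) 2

/-- The reflection of the class `a = (d; w)`, `d H - ∑ w l E l`, in the class
`H - E (i 0) - E (i 1) - E (i 2)`: with `δ = d - w (i 0) - w (i 1) - w (i 2)`, the numbers
`d`, `w (i 0)`, `w (i 1)`, `w (i 2)` are increased by `δ`. -/
def reflect {n : ℕ} (i : Fin 3 → Fin n) (a : ℤ × (Fin n → ℤ)) : ℤ × (Fin n → ℤ) :=
  (a.1 + (a.1 - a.2 (i 0) - a.2 (i 1) - a.2 (i 2)),
    fun l => a.2 l + if l = i 0 ∨ l = i 1 ∨ l = i 2 then a.1 - a.2 (i 0) - a.2 (i 1) - a.2 (i 2)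
      else 0)

/-- Finitely many reflections carry `(d; w)` to `(d'; w')`. -/
def Carries {n : ℕ} (d : ℕ) (w : Fin n → ℕ) (d' : ℕ) (w' : Fin n → ℕ) : Prop :=
  Relation.ReflTransGen
    (fun a b : ℤ × (Fin n → ℤ) => ∃ i : Fin 3 → Fin n, Function.Injective i ∧ b = reflect i a)
    ((d : ℤ), fun l => (w l : ℤ)) ((d' : ℤ), fun l => (w' l : ℤ))

/-- `Very n Q`: the statement `Q` holds for all `n`-tuples of points outside countably many
hypersurfaces. -/
def Very (n : ℕ) (Q : (Fin n → Fin 2 → ℂ) → Prop) : Prop :=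
  ∃ F : ℕ → MvPolynomial (Fin n × Fin 2) ℂ, (∀ j, F j ≠ 0) ∧ ∀ P : Fin n → Fin 2 → ℂ,
    (∀ j, MvPolynomial.eval (fun ij : Fin n × Fin 2 => P ij.1 ij.2) (F j) ≠ 0) → Q P

/-- the centre `√n + 2 (∑ w i) / √n` of the window -/
noncomputable def centre {n : ℕ} (w : Fin n → ℕ) : ℝ :=
  √(n : ℝ) + 2 * (∑ i, (w i : ℝ)) / √(n : ℝ)

theorem result : ∃ N0 : ℕ, ∀ n : ℕ, 10 ≤ n → Very n fun P => ∀ (d : ℕ) (w : Fin n → ℕ), Nef P d w →
    ∀ (d' : ℕ) (w' : Fin n → ℕ), Carries d w d' w' →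
    (∀ m : ℕ, 1 ≤ m → (∀ i, w' i = m ∨ w' i = m + 1) →
      (N0 ≤ n ∨ (144 ≤ n ∧ 4 ∣ n) ∨ n = 13 ∨ (m : ℝ) + 1 ≤ n - 6 * √(n : ℝ) + 11 ∨
        2 * (d' : ℝ) + 3 < centre w' - min (√(n : ℝ) - 3) (2 / 3 + 9 / (4 * √(n : ℝ))) ∨
        centre w' + min (√(n : ℝ) - 3) (2 / 3 + 1 / (4 * √(n : ℝ))) < 2 * (d' : ℝ) + 3) →
      NonSpecial P d w) ∧
    (∀ b : ℕ, (∀ i, w' i ≤ b + 1) →
      centre w' + 2 * ((∑ i, (b - w' i) : ℕ) : ℝ) / √(n : ℝ) +
        min (√(n : ℝ) - 3) (2 / 3 + 1 / (4 * √(n : ℝ))) < 2 * (d' : ℝ) + 3 → NonSpecial P d w) ∧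
    (37 ≤ n → ∀ M : ℕ, (∀ i, w' i ≤ M) →
      ((∀ i, w' i = M) ∨ n * (M + 1).choose 2 ≤ (d' + 2).choose 2) → NonSpecial P d w) ∧
    (N0 ≤ n ∨ (144 ≤ n ∧ 4 ∣ n) → ∀ (m : ℕ) (v : Fin n → ℕ), 1 ≤ m →
      (∀ i, v i = m ∨ v i = m + 1) → (∀ i, w' i ≤ v i) →
      ∑ i, (v i + 1).choose 2 ≤ (d' + 2).choose 2 → NonSpecial P d w) := by
  have hNef : ∀ {n : ℕ} {P : Fin n → Fin 2 → ℂ} {d : ℕ} {w : Fin n → ℕ}, Nef P d w →
      Pool.Agent.TH442.NF.NefAt P d w := by
    intro n P d w h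
    rw [Pool.Agent.TH442.NF.nefAt_iff]
    intro G e u hG
    have h1 := h G e u hG.irreducible hG.homogeneous hG.mult
    unfold Pool.Agent.TH167.SHDefs.inter
    have h2 : ((∑ i, w i * u i : ℕ) : ℤ) ≤ ((d * e : ℕ) : ℤ) := by exact_mod_cast h1
    push_cast at h2
    omega
  obtain ⟨N0, hN0⟩ := Pool.Agent.TH105.NU.expDim_near
  -- near-uniform vectors in all degrees
  have hall : ∀ {n : ℕ}, (N0 ≤ n ∨ (144 ≤ n ∧ 4 ∣ n)) → ∀ {m : ℕ} {v : Fin n → ℕ}, 1 ≤ m →
      (∀ i, v i = m ∨ v i = m + 1) → ∀ {P : Fin n → Fin 2 → ℂ},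
      AlgebraicIndependent ℚ (fun ij : Fin n × Fin 2 => P ij.1 ij.2) → ∀ d : ℕ,
      Pool.Agent.H932R3.ExpDim ℂ v P d := by
    intro n hN m v hm hv P hP d
    rcases hN with hN | ⟨hN, k, rfl⟩
    · obtain ⟨F, hF, hF'⟩ := hN0 n hN m hm v hv (L := ℂ)
      exact hF' P (fun h0 => hF (hP.eq_zero_of_aeval_eq_zero F h0)) d
    · obtain ⟨F, hF, hF'⟩ := Pool.Agent.TH2.NU.near4 (N := k) (by omega) hm hv (L := ℂ)
      exact hF' P (fun h0 => hF (hP.eq_zero_of_aeval_eq_zero F h0)) d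
  refine ⟨N0, fun n hn => ?_⟩
  obtain ⟨F, hF, hF'⟩ := Pool.Agent.TH603.Cut.exists_family (Fin n × Fin 2)
  refine ⟨F, hF, fun P hP d w hN d' w' hc => ?_⟩
  have key := Pool.Agent.TH442.NF.of_chain (hF' _ hP) (hNef hN) hc
  refine ⟨fun m hm hw' h => key fun P' hP' => ?_, fun b hb hd' => key fun P' hP' => ?_,
    fun h37 M hM h => key fun P' hP' => ?_, fun hN m v hm hv hw' h => key fun P' hP' => ?_⟩
  · rcases h with h | h | h | h | h
    · exact hall (Or.inl h) hm hw' hP' d'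
    · exact hall (Or.inr h) hm hw' hP' d'
    · subst h
      obtain ⟨E, hE, hE'⟩ := Pool.Agent.TH759.EV.expDim_thirteen hw'
      exact hE' P' (fun h0 => hE (hP'.eq_zero_of_aeval_eq_zero E h0)) d'
    · obtain ⟨E, hE, hE'⟩ := Pool.Agent.H932R3.near_points (L := ℂ) (n := n) (m := m) hn hm hw'
        (Pool.Agent.H932R3.near_cond (by omega) hw' (Or.inl (by push_cast; exact h)))
      exact hE' P' (fun h0 => hE (hP'.eq_zero_of_aeval_eq_zero E h0)) d'
    · obtain ⟨E, hE, hE'⟩ := Pool.Agent.TH885.NW.exp_near2 (L := ℂ) hn hm hw'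
      refine hE' P' (fun h0 => hE (hP'.eq_zero_of_aeval_eq_zero E h0)) d' ?_
      unfold Pool.Agent.TH885.NW.upW Pool.Agent.TH885.NW.loW
      unfold centre at h
      rcases h with h | h
      · right; linarith
      · left; linarith
  · have hnR : (10 : ℝ) ≤ n := by exact_mod_cast hn
    have hs0 : 0 < √(n : ℝ) := Real.sqrt_pos.2 (by linarith)
    have hss : √(n : ℝ) * √(n : ℝ) = n := Real.mul_self_sqrt (by linarith)
    obtain ⟨E, hE, hE'⟩ := Pool.Agent.TH885.NW.exp_cut2 hn w'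
    refine hE' P' (fun h0 => hE (hP'.eq_zero_of_aeval_eq_zero E h0)) d' ?_
    right; right
    refine ⟨b, hb, ?_⟩
    have hmax : (∑ i, ((max (w' i) b : ℕ) : ℝ)) =
        (∑ i, (w' i : ℝ)) + ((∑ i, (b - w' i) : ℕ) : ℝ) := by
      rw [Nat.cast_sum, ← Finset.sum_add_distrib]
      refine Finset.sum_congr rfl fun i _ => ?_
      rw [← Nat.cast_add]
      congr 1
      omega
    unfold centre at hd'
    rw [hmax]
    obtain ⟨g, hg⟩ : ∃ g : ℝ, g = ((∑ i, (b - w' i) : ℕ) : ℝ) := ⟨_, rfl⟩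
    obtain ⟨s, hs⟩ : ∃ s, s = √(n : ℝ) := ⟨_, rfl⟩
    obtain ⟨W, hW⟩ : ∃ W : ℝ, W = ∑ i, (w' i : ℝ) := ⟨_, rfl⟩
    rw [← hs, ← hW, ← hg] at hd' ⊢
    rw [← hs] at hs0 hss
    have e0 : 2 * W / s * s = 2 * W := div_mul_cancel₀ _ hs0.ne'
    have e3 : 2 * g / s * s = 2 * g := div_mul_cancel₀ _ hs0.ne'
    have h1 := mul_lt_mul_of_pos_right hd' hs0
    rcases min_choice (s - 3) (2 / 3 + 1 / (4 * s)) with h | h
    · left
      rw [h] at h1
      nlinarith
    · right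
      rw [h] at h1
      have e1 : 1 / (4 * s) * s = 1 / 4 := by field_simp
      have e2 : (2 / 3 + 1 / (4 * s)) * s = 2 / 3 * s + 1 / 4 := by rw [add_mul, e1]
      rw [add_mul, e2, add_mul, add_mul, e3, e0] at h1
      nlinarith
  · have huni : Pool.Agent.H932R3.ExpDim ℂ (fun _ : Fin n => M) P' d' := by
      rcases Nat.eq_zero_or_pos M with h0 | h0
      · subst h0
        exact Pool.Agent.TH442.NF.exp_zero P' d'
      · obtain ⟨E, hE, hE'⟩ := Pool.Agent.TH760.EN.expDim37 h37 h0 (L := ℂ)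
        exact hE' P' (fun h0 => hE (hP'.eq_zero_of_aeval_eq_zero E h0)) d'
    rcases h with h | h
    · have e : w' = fun _ => M := funext h
      rw [e]
      exact huni
    · exact Pool.Agent.TH442.NF.exp_mono huni (by simpa using h) hM
  · exact Pool.Agent.TH442.NF.exp_mono (hall hN hm hv hP' d') h hw'

end Pool.Agent.Results.MP_0f5763_ag.NefWeylOrbits
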